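import Mathlib
import Pool.Agent.Lib.MP_a2b538_an.Comb

namespace Pool.Agent.Lib.MP_a2b538_an.AP

open Finset

/-- a finite set carrying the signs of a functional and the signs of a vector -/
structure Mem where
  S : Finset ℕ
  σ : ℕ → ℝ
  τ : ℕ → ℝ

noncomputable def rr (k : ℕ) : ℝ := 2 ^ ((k + 1) ^ 2 + 1)

theorem rr_pos (k : ℕ) : 0 < rr k := by unfold rr; positivity

theorem rr_lt {k l : ℕ} (h : k < l) : rr k * (2 ^ k * 2 ^ l) ≤ rr l := by
  unfold rr
  rw [← pow_add, ← pow_add]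
  refine pow_le_pow_right₀ one_le_two ?_
  obtain ⟨d, rfl⟩ := Nat.exists_eq_add_of_lt h
  nlinarith

theorem rr_succ (k : ℕ) : 2 * rr k ≤ rr (k + 1) := by
  unfold rr
  rw [← pow_succ']
  exact pow_le_pow_right₀ one_le_two (by ring_nf; omega)

/-- the families of functionals are small enough -/
structure Small (L : ℕ → Set Mem) : Prop where
  card : ∀ k, ∀ a ∈ L k, (a.S.card : ℝ) ≤ rr k ^ 2
  sig : ∀ k, ∀ a ∈ L k, ∀ j, |a.σ j| ≤ 1

variable {𝕜 : Type} [RCLike 𝕜] {L : ℕ → Set Mem}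

/-- the norm of the sequence `x` is at most `C` -/
def Bd (L : ℕ → Set Mem) (x : ℕ → 𝕜) (C : ℝ) : Prop :=
  (∀ T : Finset ℕ, ∑ j ∈ T, ‖x j‖ ^ 2 ≤ C ^ 2) ∧
    ∀ (m : ℕ) (S : ℕ → Mem), (∀ k, S k ∈ L k) →
      ∑ k ∈ range m, ‖∑ j ∈ (S k).S, ((S k).σ j : 𝕜) * x j‖ / rr k ≤ C

def Phi (𝕜 : Type) [RCLike 𝕜] (L : ℕ → Set Mem) : Set ((ℕ → 𝕜) →L[𝕜] 𝕜) :=
  {φ | (∃ (T : Finset ℕ) (w : ℕ → 𝕜), ∑ j ∈ T, ‖w j‖ ^ 2 ≤ 1 ∧ ∀ x, φ x = ∑ j ∈ T, w j * x j) ∨
    ∃ (m : ℕ) (S : ℕ → Mem) (θ : ℕ → 𝕜), (∀ k, S k ∈ L k) ∧ (∀ k, ‖θ k‖ ≤ (rr k)⁻¹) ∧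
      ∀ x, φ x = ∑ k ∈ range m, θ k * ∑ j ∈ (S k).S, ((S k).σ j : 𝕜) * x j}

theorem proj_mem_Phi (j : ℕ) : (ContinuousLinearMap.proj j : (ℕ → 𝕜) →L[𝕜] 𝕜) ∈ Phi 𝕜 L :=
  Or.inl ⟨{j}, fun _ => 1, by simp, fun x => by simp⟩

theorem phi_of_bd {x : ℕ → 𝕜} {C : ℝ} (hC : 0 ≤ C) (h : Bd L x C) :
    ∀ φ ∈ Phi 𝕜 L, ‖φ x‖ ≤ C := by
  rintro φ (⟨T, w, hw, hφ⟩ | ⟨m, S, θ, hS, hθ, hφ⟩)
  · rw [hφ]
    have h1 : ‖∑ j ∈ T, w j * x j‖ ≤ ∑ j ∈ T, ‖w j‖ * ‖x j‖ :=
      (norm_sum_le _ _).trans (le_of_eq (sum_congr rfl fun j _ => norm_mul _ _))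
    have h2 := sum_mul_sq_le_sq_mul_sq T (fun j => ‖w j‖) (fun j => ‖x j‖)
    have h3 := h.1 T
    have h4 : (∑ j ∈ T, ‖w j‖ * ‖x j‖) ^ 2 ≤ C ^ 2 := by
      refine h2.trans ?_
      calc _ ≤ 1 * C ^ 2 := mul_le_mul hw h3 (by positivity) zero_le_one
        _ = C ^ 2 := one_mul _
    exact h1.trans (abs_le_of_sq_le_sq' h4 hC).2
  · rw [hφ]
    refine (norm_sum_le _ _).trans (le_trans (sum_le_sum fun k _ => ?_) (h.2 m S hS))
    rw [norm_mul, div_eq_inv_mul]
    exact mul_le_mul_of_nonneg_right (hθ k) (norm_nonneg _)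

theorem bd_of_phi {x : ℕ → 𝕜} {C : ℝ} (hC : 0 ≤ C) (h : ∀ φ ∈ Phi 𝕜 L, ‖φ x‖ ≤ C) :
    Bd L x C := by
  constructor
  · intro T
    set q : ℝ := ∑ j ∈ T, ‖x j‖ ^ 2 with hq
    have hq0 : 0 ≤ q := by positivity
    rcases hq0.eq_or_lt with h0 | hpos
    · rw [← h0]; positivity
    have hs : 0 < √q := Real.sqrt_pos.mpr hpos
    let w : ℕ → 𝕜 := fun j => ((√q)⁻¹ : ℝ) * (starRingEnd 𝕜) (x j)
    have h1 := h (∑ j ∈ T, w j • (ContinuousLinearMap.proj j : (ℕ → 𝕜) →L[𝕜] 𝕜))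
      (Or.inl ⟨T, w, ?_, fun y => by simp⟩)
    · have h2 : (∑ j ∈ T, w j • (ContinuousLinearMap.proj j : (ℕ → 𝕜) →L[𝕜] 𝕜)) x
          = ((√q : ℝ) : 𝕜) := by
        simp only [_root_.sum_apply, _root_.smul_apply,
          ContinuousLinearMap.proj_apply, smul_eq_mul, w, mul_assoc, RCLike.conj_mul]
        rw [← mul_sum]
        have : ∑ j ∈ T, ((‖x j‖ : ℝ) : 𝕜) ^ 2 = ((q : ℝ) : 𝕜) := by rw [hq]; push_cast; rfl
        rw [this, ← RCLike.ofReal_mul]
        congr 1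
        rw [inv_mul_eq_iff_eq_mul₀ hs.ne', Real.mul_self_sqrt hq0]
      rw [h2, RCLike.norm_ofReal, abs_of_pos hs] at h1
      calc q = √q ^ 2 := (Real.sq_sqrt hq0).symm
        _ ≤ C ^ 2 := by gcongr
    · have : ∀ j, ‖w j‖ ^ 2 = q⁻¹ * ‖x j‖ ^ 2 := by
        intro j
        simp only [w, norm_mul, RCLike.norm_ofReal, RCLike.norm_conj, mul_pow, sq_abs, inv_pow,
          Real.sq_sqrt hq0]
      simp only [this]
      rw [← mul_sum, ← hq, inv_mul_cancel₀ hpos.ne']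
  · intro m S hS
    choose c hc1 hc2 using fun k => 
      RCLike.exists_norm_eq_mul_self (∑ j ∈ (S k).S, ((S k).σ j : 𝕜) * x j)
    let θ : ℕ → 𝕜 := fun k => (((rr k)⁻¹ : ℝ) : 𝕜) * c k
    have h1 := h (∑ k ∈ range m, θ k •
      ∑ j ∈ (S k).S, ((S k).σ j : 𝕜) • (ContinuousLinearMap.proj j : (ℕ → 𝕜) →L[𝕜] 𝕜))
      (Or.inr ⟨m, S, θ, hS, fun k => ?_, fun y => by simp⟩)
    · have h2 : (∑ k ∈ range m, θ k • ∑ j ∈ (S k).S,
          ((S k).σ j : 𝕜) • (ContinuousLinearMap.proj j : (ℕ → 𝕜) →L[𝕜] 𝕜)) x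
          = ((∑ k ∈ range m, ‖∑ j ∈ (S k).S, ((S k).σ j : 𝕜) * x j‖ / rr k : ℝ) : 𝕜) := by
        simp only [_root_.sum_apply, _root_.smul_apply,
          ContinuousLinearMap.proj_apply, smul_eq_mul, θ, mul_assoc, ← hc2]
        push_cast
        exact sum_congr rfl fun k _ => by rw [div_eq_inv_mul]
      rw [h2, RCLike.norm_ofReal] at h1
      exact (le_abs_self _).trans h1
    · simp only [θ, norm_mul, hc1, mul_one, RCLike.norm_ofReal]
      rw [abs_of_pos (inv_pos.mpr (rr_pos k))]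

theorem Bd.mono {x : ℕ → 𝕜} {C C' : ℝ} (hC : 0 ≤ C) (h : Bd L x C) (hCC : C ≤ C') : Bd L x C' :=
  ⟨fun T => (h.1 T).trans (by gcongr), fun m S hS => (h.2 m S hS).trans hCC⟩

theorem Small.norm_le (hL : Small L) {k : ℕ} {a : Mem} (ha : a ∈ L k) (x : ℕ → 𝕜) :
    ‖∑ j ∈ a.S, (a.σ j : 𝕜) * x j‖ ≤ ∑ j ∈ a.S, ‖x j‖ := by
  refine (norm_sum_le _ _).trans (sum_le_sum fun j _ => ?_)
  rw [norm_mul, RCLike.norm_ofReal]
  exact mul_le_of_le_one_left (norm_nonneg _) (hL.sig k a ha j)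

theorem bd_flat (hL : Small L) {x : ℕ → 𝕜} {D : Finset ℕ} {t : ℝ} (ht : 0 ≤ t)
    (h1 : ∀ j ∈ D, ‖x j‖ ≤ t) (h0 : ∀ j ∉ D, x j = 0) : Bd L x (6 * t * √(D.card)) := by
  classical
  have hsum : ∀ T : Finset ℕ, ∑ j ∈ T, ‖x j‖ ≤ t * ((T ∩ D).card : ℝ) := by
    intro T
    rw [← sum_subset (inter_subset_left (s₁ := T) (s₂ := D))
      (fun j hj hj' => by rw [h0 j (fun h => hj' (mem_inter.mpr ⟨hj, h⟩)), norm_zero])]
    calc _ ≤ ∑ _j ∈ T ∩ D, t := sum_le_sum fun j hj => h1 j (mem_inter.mp hj).2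
      _ = _ := by rw [sum_const, nsmul_eq_mul, mul_comm]
  have hle : ∀ j, ‖x j‖ ≤ t := fun j => by
    by_cases hj : j ∈ D
    · exact h1 j hj
    · rw [h0 j hj, norm_zero]; exact ht
  constructor
  · intro T
    have a1 : ∑ j ∈ T, ‖x j‖ ^ 2 ≤ t * ∑ j ∈ T, ‖x j‖ := by
      rw [mul_sum]
      exact sum_le_sum fun j _ => by
        rw [sq]; exact mul_le_mul_of_nonneg_right (hle j) (norm_nonneg _)
    have a2 : ((T ∩ D).card : ℝ) ≤ D.card := by exact_mod_cast card_le_card inter_subset_right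
    have a3 := hsum T
    have a4 : (6 * t * √(D.card)) ^ 2 = 36 * (t * (t * D.card)) := by
      rw [mul_pow, Real.sq_sqrt (Nat.cast_nonneg _)]; ring
    have a5 : t * ∑ j ∈ T, ‖x j‖ ≤ t * (t * D.card) :=
      mul_le_mul_of_nonneg_left (a3.trans (mul_le_mul_of_nonneg_left a2 ht)) ht
    have a6 : 0 ≤ t * (t * D.card) := by positivity
    linarith
  · intro m S hS
    rcases D.eq_empty_or_nonempty with rfl | hD
    · have : ∀ j, x j = 0 := fun j => h0 j (notMem_empty j)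
      simp [this]
    have hd : (0 : ℝ) < D.card := by exact_mod_cast hD.card_pos
    have hs : 0 < √(D.card : ℝ) := Real.sqrt_pos.mpr hd
    have hss : √(D.card : ℝ) * √(D.card : ℝ) = D.card := Real.mul_self_sqrt hd.le
    have key := sum_min_le (fun k => rr k / √(D.card : ℝ)) (fun k => div_pos (rr_pos k) hs)
      (fun k => by rw [← mul_div_assoc]; exact div_le_div_of_nonneg_right (rr_succ k) hs.le) m
    calc _ ≤ ∑ k ∈ range m, t * √(D.card : ℝ) *
          min (rr k / √(D.card : ℝ)) (rr k / √(D.card : ℝ))⁻¹ := by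
          refine sum_le_sum fun k hk => ?_
          have hr := rr_pos k
          have b1 := (hL.norm_le (hS k) x).trans (hsum (S k).S)
          have b2 : (((S k).S ∩ D).card : ℝ) ≤ rr k ^ 2 := by
            refine le_trans ?_ (hL.card k _ (hS k))
            exact_mod_cast card_le_card inter_subset_left
          have b3 : (((S k).S ∩ D).card : ℝ) ≤ D.card := by
            exact_mod_cast card_le_card inter_subset_right
          rw [mul_min_of_nonneg _ _ (by positivity), le_min_iff, div_le_iff₀ hr, div_le_iff₀ hr]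
          constructor
          · refine b1.trans ((mul_le_mul_of_nonneg_left b2 ht).trans (le_of_eq ?_))
            field_simp
          · refine b1.trans ((mul_le_mul_of_nonneg_left b3 ht).trans (le_of_eq ?_))
            rw [inv_div]
            field_simp
            rw [sq, hss]
      _ = t * √(D.card : ℝ) * ∑ k ∈ range m,
          min (rr k / √(D.card : ℝ)) (rr k / √(D.card : ℝ))⁻¹ := by rw [mul_sum]
      _ ≤ t * √(D.card : ℝ) * 6 := mul_le_mul_of_nonneg_left key (by positivity)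
      _ = _ := by ring

theorem bd_greedy (hL : Small L) {x : ℕ → 𝕜} {C : ℝ} (hC : 0 ≤ C) (h : Bd L x C) (A : Finset ℕ)
    (hA : ∀ n ∈ A, ∀ k ∉ A, ‖x k‖ ≤ ‖x n‖) :
    Bd L (fun j => if j ∈ A then x j else 0) (7 * C) := by
  classical
  rcases A.eq_empty_or_nonempty with rfl | hne
  · refine ⟨fun T => ?_, fun m S _ => ?_⟩
    · simp only [notMem_empty, if_false, norm_zero]; simp; positivity
    · simp only [notMem_empty, if_false]; simp; positivity
  obtain ⟨n0, hn0, hmin⟩ := exists_min_image A (fun j => ‖x j‖) hne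
  set t := ‖x n0‖ with ht
  have ht0 : 0 ≤ t := norm_nonneg _
  rcases ht0.eq_or_lt with h0 | hpos
  · have : (fun j => if j ∈ A then x j else 0) = x := by
      funext j
      split_ifs with hj
      · rfl
      · have := hA n0 hn0 j hj
        rw [← ht, ← h0] at this
        exact (norm_le_zero_iff.mp this).symm
    rw [this]; exact h.mono hC (by linarith)
  have hCt : t ≤ C := by
    have := h.1 {n0}
    rw [sum_singleton] at this
    exact (abs_le_of_sq_le_sq' this hC).2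
  have hCpos : 0 < C := lt_of_lt_of_le hpos hCt
  constructor
  · intro T
    calc _ ≤ ∑ j ∈ T, ‖x j‖ ^ 2 := sum_le_sum fun j _ => by
          dsimp only
          split_ifs
          · exact le_rfl
          · simp
      _ ≤ C ^ 2 := h.1 T
      _ ≤ (7 * C) ^ 2 := by gcongr; linarith
  · intro m S hS
    have key := sum_min_le (fun k => t * rr k / C)
      (fun k => div_pos (mul_pos hpos (rr_pos k)) hCpos)
      (fun k => by
        rw [← mul_div_assoc]
        refine div_le_div_of_nonneg_right ?_ hC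
        have := rr_succ k
        nlinarith) m
    calc _ ≤ ∑ k ∈ range m, (‖∑ j ∈ (S k).S, ((S k).σ j : 𝕜) * x j‖ / rr k +
          C * min (t * rr k / C) (t * rr k / C)⁻¹) := by
          refine sum_le_sum fun k hk => ?_
          have hr := rr_pos k
          have hc := hL.card k _ (hS k)
          have b1 : ‖∑ j ∈ (S k).S, ((S k).σ j : 𝕜) * (if j ∈ A then x j else 0)‖ ≤
              ‖∑ j ∈ (S k).S, ((S k).σ j : 𝕜) * x j‖ + t * rr k ^ 2 := by
            have e : ∑ j ∈ (S k).S, ((S k).σ j : 𝕜) * (if j ∈ A then x j else 0)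
                = ∑ j ∈ (S k).S, ((S k).σ j : 𝕜) * x j -
                  ∑ j ∈ (S k).S, ((S k).σ j : 𝕜) * (if j ∈ A then 0 else x j) := by
              rw [← sum_sub_distrib]
              exact sum_congr rfl fun j _ => by split_ifs <;> simp
            rw [e]
            refine (norm_sub_le _ _).trans (add_le_add le_rfl ((hL.norm_le (hS k) _).trans ?_))
            calc _ ≤ ∑ _j ∈ (S k).S, t := sum_le_sum fun j _ => by
                  split_ifs with hj
                  · simpa using ht0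
                  · exact hA n0 hn0 j hj
              _ ≤ _ := by
                  rw [sum_const, nsmul_eq_mul, mul_comm]
                  exact mul_le_mul_of_nonneg_left hc ht0
          have b2 : ‖∑ j ∈ (S k).S, ((S k).σ j : 𝕜) * (if j ∈ A then x j else 0)‖ ≤
              C ^ 2 / t := by
            rw [le_div_iff₀ hpos]
            refine (mul_le_mul_of_nonneg_right (hL.norm_le (hS k) _) ht0).trans ?_
            rw [sum_mul]
            refine le_trans (sum_le_sum fun j _ => ?_) (h.1 (S k).S)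
            split_ifs with hj
            · rw [sq]; exact mul_le_mul_of_nonneg_left (hmin j hj) (norm_nonneg _)
            · simp
          have n1 : 0 ≤ ‖∑ j ∈ (S k).S, ((S k).σ j : 𝕜) * x j‖ / rr k := by positivity
          rcases min_choice (t * rr k / C) (t * rr k / C)⁻¹ with e | e <;> rw [e]
          · refine (div_le_div_of_nonneg_right b1 hr.le).trans (le_of_eq ?_)
            field_simp
          · refine (div_le_div_of_nonneg_right b2 hr.le).trans ?_
            have : C ^ 2 / t / rr k = C * (t * rr k / C)⁻¹ := by field_simp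
            linarith
      _ = ∑ k ∈ range m, ‖∑ j ∈ (S k).S, ((S k).σ j : 𝕜) * x j‖ / rr k +
          C * ∑ k ∈ range m, min (t * rr k / C) (t * rr k / C)⁻¹ := by
          rw [sum_add_distrib, mul_sum]
      _ ≤ C + C * 6 := add_le_add (h.2 m S hS) (mul_le_mul_of_nonneg_left key hC)
      _ = 7 * C := by ring

end Pool.Agent.Lib.MP_a2b538_an.AP
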