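import Mathlib
import Pool.Agent.Lib.MP_a2b538_an.AP.Seq
import Pool.Agent.Lib.MP_a2b538_an.L1.Four

namespace Pool.Agent.Lib.MP_a2b538_an.AP

open Finset L1

/-- the member carried by an injective map with two sign functions -/
noncomputable def mk {Z : Type} [Fintype Z] (p : Z ↪ ℕ) (s t : Z → ℝ) : Mem :=
  ⟨univ.map p, Function.extend p s 0, Function.extend p t 0⟩

section
variable {Z : Type} [Fintype Z]

theorem ext_le (p : Z ↪ ℕ) (s : Z → ℝ) (hs : ∀ z, |s z| ≤ 1) (j : ℕ) :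
    |Function.extend p s 0 j| ≤ if j ∈ univ.map p then 1 else 0 := by
  by_cases h : ∃ z, p z = j
  · obtain ⟨z, rfl⟩ := h
    rw [p.injective.extend_apply, if_pos (mem_map_of_mem p (mem_univ z))]
    exact hs z
  · rw [Function.extend_apply' _ _ _ h, if_neg (by simpa using h)]
    simp

theorem mk_avg (p : Z ↪ ℕ) (s t : Z → ℝ) (T : ℕ → ℕ → ℝ) :
    ∑ i ∈ (mk p s t).S, ∑ j ∈ (mk p s t).S, (mk p s t).σ i * (mk p s t).τ j * T i j =
      ∑ z, ∑ z', s z * t z' * T (p z) (p z') := by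
  simp only [mk, sum_map, p.injective.extend_apply]

theorem mk_ort (p p' : Z ↪ ℕ) (s t s' t' : Z → ℝ) (h : ∀ z z', p z = p' z' → z = z') :
    ∑ j ∈ (mk p' s' t').S, (mk p' s' t').σ j * (mk p s t).τ j =
      ∑ z, if p z = p' z then s' z * t z else 0 := by
  simp only [mk, sum_map, p'.injective.extend_apply]
  refine sum_congr rfl fun z _ => ?_
  split_ifs with e
  · rw [← e, p.injective.extend_apply]
  · rw [Function.extend_apply' _ _ _ (fun ⟨z', hz⟩ => e (h z' z hz ▸ hz))]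
    simp
end

variable {K R R' : Type} [Field K] [Fintype K] [DecidableEq K] [Fintype R] [Fintype R']

/-- the sign attached to a label -/
def eps (d : Bool) : ℝ := if d then 1 else -1

/-- the two graphs attached to a label -/
def pt (u : K × K × R ↪ ℕ) (w : K × K × R × R' ↪ ℕ) (hd : ∀ a b, u a ≠ w b)
    (g : R × R' × Bool → K → K) (i : K × R × R' × Bool) : K ⊕ K ↪ ℕ :=
  ⟨Sum.elim (fun x => u (x, i.1 + g i.2 x, i.2.1)) (fun x => w (x, i.1 + g i.2 x, i.2.1, i.2.2.1)),
    by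
      rintro (x | x) (y | y) h
      · simp only [Sum.elim_inl, EmbeddingLike.apply_eq_iff_eq, Prod.mk.injEq] at h
        rw [h.1]
      · exact absurd h (hd _ _)
      · exact absurd h.symm (hd _ _)
      · simp only [Sum.elim_inr, EmbeddingLike.apply_eq_iff_eq, Prod.mk.injEq] at h
        rw [h.1]⟩

/-- the member attached to a label and a character -/
noncomputable def mem (u : K × K × R ↪ ℕ) (w : K × K × R × R' ↪ ℕ) (hd : ∀ a b, u a ≠ w b)
    (g : R × R' × Bool → K → K) (ψ : K → ℝ) (i : K × R × R' × Bool) (c : K) : Mem :=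
  mk (pt u w hd g i) (Sum.elim (fun x => ψ (c * x)) (fun x => eps i.2.2.2 * ψ (c * x)))
    (Sum.elim (fun x => -ψ (c * x)) (fun x => eps i.2.2.2 * ψ (c * x)))

theorem eps_abs (d : Bool) : |eps d| = 1 := by cases d <;> simp [eps]

theorem eps_mul (d : Bool) : eps d * eps d = 1 := by cases d <;> simp [eps]

variable {u : K × K × R ↪ ℕ} {w : K × K × R × R' ↪ ℕ} {hd : ∀ a b, u a ≠ w b}
  {g : R × R' × Bool → K → K} {ψ : K → ℝ}

omit [Fintype R] [Fintype R'] in
theorem mem_ort (h : Sgn ψ) {D : ℕ}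
    (hg : ∀ i i' : K × R × R' × Bool, i ≠ i' →
      (univ.filter fun x => i.1 + g i.2 x = i'.1 + g i'.2 x).card ≤ D)
    (i i' : K × R × R' × Bool) (c c' : K) :
    |∑ j ∈ (mem u w hd g ψ i' c').S, (mem u w hd g ψ i' c').σ j * (mem u w hd g ψ i c).τ j| ≤
      2 * D := by
  unfold mem
  rw [mk_ort]
  · by_cases e : i = i'
    · subst e
      simp only [if_true, Fintype.sum_sum_type, Sum.elim_inl, Sum.elim_inr]
      rw [← sum_add_distrib, sum_eq_zero, abs_zero]
      · positivity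
      · intro x _
        linear_combination (ψ (c' * x) * ψ (c * x)) * eps_mul i.2.2.2
    · have hD : (((univ.filter fun x => i.1 + g i.2 x = i'.1 + g i'.2 x).card : ℕ) : ℝ) ≤ D := by
        exact_mod_cast hg i i' e
      rw [card_filter] at hD
      push_cast at hD
      refine (abs_sum_le_sum_abs _ _).trans ?_
      rw [Fintype.sum_sum_type, two_mul]
      refine add_le_add (le_trans (sum_le_sum fun x _ => ?_) hD)
        (le_trans (sum_le_sum fun x _ => ?_) hD)
      · by_cases e2 : i.1 + g i.2 x = i'.1 + g i'.2 x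
        · rw [if_pos e2]
          split_ifs
          · simp [abs_mul, h.abs_eq]
          · simp
        · rw [if_neg e2, if_neg, abs_zero]
          intro e3
          simp only [pt, Function.Embedding.coeFn_mk, Sum.elim_inl, EmbeddingLike.apply_eq_iff_eq,
            Prod.mk.injEq] at e3
          exact e2 e3.2.1
      · by_cases e2 : i.1 + g i.2 x = i'.1 + g i'.2 x
        · rw [if_pos e2]
          split_ifs
          · simp [abs_mul, h.abs_eq, eps_abs]
          · simp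
        · rw [if_neg e2, if_neg, abs_zero]
          intro e3
          simp only [pt, Function.Embedding.coeFn_mk, Sum.elim_inr, EmbeddingLike.apply_eq_iff_eq,
            Prod.mk.injEq] at e3
          exact e2 e3.2.1
  · rintro (x | x) (y | y) e
    · simp only [pt, Function.Embedding.coeFn_mk, Sum.elim_inl, EmbeddingLike.apply_eq_iff_eq,
        Prod.mk.injEq] at e
      rw [e.1]
    · exact absurd e (hd _ _)
    · exact absurd e.symm (hd _ _)
    · simp only [pt, Function.Embedding.coeFn_mk, Sum.elim_inr, EmbeddingLike.apply_eq_iff_eq,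
        Prod.mk.injEq] at e
      rw [e.1]

theorem char_sum (h : Sgn ψ) (F : K → K → ℝ) :
    ∑ c, ∑ x, ∑ y, ψ (c * x) * ψ (c * y) * F x y = Fintype.card K * ∑ x, F x x := by
  have e2 : ∀ x y : K, x + y = 0 ↔ y = x := fun x y =>
    ⟨fun e => add_left_cancel (e.trans (h.two x).symm), fun e => e ▸ h.two _⟩
  rw [sum_comm, mul_sum]
  refine sum_congr rfl fun x _ => ?_
  rw [sum_comm]
  simp only [← h.add, ← mul_add, ← Finset.sum_mul, h.sum_mul, e2, ite_mul, zero_mul, sum_ite_eq',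
    mem_univ, if_true]

omit [Fintype R] [Fintype R'] in
theorem mem_avg1 (h : Sgn ψ) (T : ℕ → ℕ → ℝ) (i : K × R × R' × Bool) :
    ∑ c, ∑ a ∈ (mem u w hd g ψ i c).S, ∑ b ∈ (mem u w hd g ψ i c).S,
      (mem u w hd g ψ i c).σ a * (mem u w hd g ψ i c).τ b * T a b =
    Fintype.card K * ∑ x, (T (w (x, i.1 + g i.2 x, i.2.1, i.2.2.1))
        (w (x, i.1 + g i.2 x, i.2.1, i.2.2.1)) -
      T (u (x, i.1 + g i.2 x, i.2.1)) (u (x, i.1 + g i.2 x, i.2.1)) +
      eps i.2.2.2 * (T (u (x, i.1 + g i.2 x, i.2.1)) (w (x, i.1 + g i.2 x, i.2.1, i.2.2.1)) -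
        T (w (x, i.1 + g i.2 x, i.2.1, i.2.2.1)) (u (x, i.1 + g i.2 x, i.2.1)))) := by
  unfold mem
  simp only [mk_avg]
  set U : K → ℕ := fun x => u (x, i.1 + g i.2 x, i.2.1) with hU
  set W : K → ℕ := fun x => w (x, i.1 + g i.2 x, i.2.1, i.2.2.1) with hW
  rw [← char_sum h (fun x y => T (W x) (W y) - T (U x) (U y) +
    eps i.2.2.2 * (T (U x) (W y) - T (W x) (U y)))]
  refine sum_congr rfl fun c _ => ?_
  simp only [Fintype.sum_sum_type, pt, Function.Embedding.coeFn_mk, Sum.elim_inl, Sum.elim_inr,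
    ← sum_add_distrib]
  refine sum_congr rfl fun x _ => sum_congr rfl fun y _ => ?_
  linear_combination (ψ (c * x) * ψ (c * y) * T (W x) (W y)) * eps_mul i.2.2.2

omit [DecidableEq K] in
theorem shift_sum (g : R × R' × Bool → K → K) (F : K → K → R × R' × Bool → ℝ) :
    ∑ i : K × R × R' × Bool, ∑ x, F x (i.1 + g i.2 x) i.2 = ∑ x, ∑ z, ∑ γ, F x z γ := by
  rw [sum_comm]
  refine sum_congr rfl fun x _ => ?_
  rw [Fintype.sum_prod_type_right, sum_comm]
  rw [sum_comm (s := (univ : Finset K))]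
  rw [sum_comm (s := (univ : Finset K))]
  exact sum_congr rfl fun γ _ => Equiv.sum_comp (Equiv.addRight (g γ x)) fun z => F x z γ

theorem mem_avg (h : Sgn ψ) (T : ℕ → ℕ → ℝ) :
    ∑ ω : (K × R × R' × Bool) × K, ∑ a ∈ (mem u w hd g ψ ω.1 ω.2).S,
      ∑ b ∈ (mem u w hd g ψ ω.1 ω.2).S,
      (mem u w hd g ψ ω.1 ω.2).σ a * (mem u w hd g ψ ω.1 ω.2).τ b * T a b =
    Fintype.card K * (2 * ∑ b, T (w b) (w b) - 2 * Fintype.card R' * ∑ a, T (u a) (u a)) := by
  rw [Fintype.sum_prod_type]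
  simp only [mem_avg1 h, ← mul_sum]
  congr 1
  rw [shift_sum g (fun x z γ => T (w (x, z, γ.1, γ.2.1)) (w (x, z, γ.1, γ.2.1)) -
      T (u (x, z, γ.1)) (u (x, z, γ.1)) +
      eps γ.2.2 * (T (u (x, z, γ.1)) (w (x, z, γ.1, γ.2.1)) -
        T (w (x, z, γ.1, γ.2.1)) (u (x, z, γ.1))))]
  simp only [Fintype.sum_prod_type, Fintype.sum_bool, eps, mul_sum, ← sum_sub_distrib]
  refine sum_congr rfl fun x _ => sum_congr rfl fun z _ => sum_congr rfl fun ρ _ => ?_
  have : 2 * (Fintype.card R' : ℝ) * T (u (x, z, ρ)) (u (x, z, ρ)) =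
      ∑ _ρ' : R', 2 * T (u (x, z, ρ)) (u (x, z, ρ)) := by
    rw [sum_const, card_univ, nsmul_eq_mul]; ring
  rw [this, ← sum_sub_distrib]
  refine sum_congr rfl fun ρ' _ => ?_
  simp only [if_true, Bool.false_eq_true, if_false]
  ring

theorem exists_g {Γ : Type} [Fintype Γ] (D : ℕ) (hΓ : Fintype.card Γ ≤ Fintype.card K ^ D) :
    ∃ g : Γ → K → K, ∀ i i' : K × Γ, i ≠ i' →
      (univ.filter fun x => i.1 + g i.2 x = i'.1 + g i'.2 x).card ≤ D + 1 := by
  obtain ⟨q⟩ : Nonempty (Γ ↪ (Fin D → K)) :=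
    Function.Embedding.nonempty_of_card_le (by simpa using hΓ)
  refine ⟨fun γ x => ∑ j : Fin D, q γ j * x ^ ((j : ℕ) + 1), fun i i' hne => ?_⟩
  refine le_trans (card_le_card fun x hx => ?_) (card_roots (n := D + 1) 0
    (Fin.cons (i.1 - i'.1) (q i.2 - q i'.2)) ?_)
  · simp only [mem_filter, mem_univ, true_and] at hx ⊢
    simp only [Fin.sum_univ_succ, Fin.cons_zero, Fin.cons_succ, Fin.val_zero, pow_zero, mul_one,
      Fin.val_succ, Pi.sub_apply, sub_mul, sum_sub_distrib]
    linear_combination hx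
  · rintro ⟨-, e⟩
    apply hne
    have e0 := congrFun e 0
    simp only [Fin.cons_zero, Pi.zero_apply] at e0
    refine Prod.ext (sub_eq_zero.1 e0) (q.injective (funext fun j => ?_))
    have e1 := congrFun e j.succ
    simp only [Fin.cons_succ, Pi.zero_apply, Pi.sub_apply] at e1
    exact sub_eq_zero.1 e1

end Pool.Agent.Lib.MP_a2b538_an.AP
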