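import Mathlib
import Pool.Agent.Lib.MP_a2b538_an.AP.Level

namespace Pool.Agent.Lib.MP_a2b538_an.AP

open Finset L1

def dd (n : ℕ) : ℕ := 4 * 256 ^ (n + 1)

def blk (n : ℕ) : Finset ℕ :=
  (range (2 ^ dd n)).map ⟨Nat.pair n, fun _ _ h => (Nat.pair_eq_pair.mp h).2⟩

theorem blk_card (n : ℕ) : (blk n).card = 2 ^ dd n := by simp [blk]

theorem blk_disj {m m' j : ℕ} (h : j ∈ blk m) (h' : j ∈ blk m') : m = m' := by
  simp only [blk, mem_map, Function.Embedding.coeFn_mk] at h h'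
  obtain ⟨a, -, ha⟩ := h
  obtain ⟨b, -, hb⟩ := h'
  exact (Nat.pair_eq_pair.mp (ha.trans hb.symm)).1

theorem le_of_mem_blk {n j : ℕ} (h : j ∈ blk n) : n ≤ j := by
  simp only [blk, mem_map, Function.Embedding.coeFn_mk] at h
  obtain ⟨a, -, rfl⟩ := h
  exact Nat.left_le_pair n a

/-- the normalized trace on a block -/
noncomputable def beta (n : ℕ) (T : ℕ → ℕ → ℝ) : ℝ := (∑ j ∈ blk n, T j j) / 2 ^ dd n

theorem exists_emb (Z : Type) [Fintype Z] (A : Finset ℕ) (h : Fintype.card Z = A.card) :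
    ∃ u : Z ↪ ℕ, (∀ a, u a ∈ A) ∧ ∀ F : ℕ → ℝ, ∑ a, F (u a) = ∑ j ∈ A, F j := by
  let E : Z ≃ A := Fintype.equivOfCardEq (by simpa using h)
  refine ⟨E.toEmbedding.trans (Function.Embedding.subtype _), fun a => (E a).2, fun F => ?_⟩
  rw [← sum_coe_sort A, ← Equiv.sum_comp E]
  rfl

/-- what one level provides -/
structure Lev (k : ℕ) (F : Set Mem) : Prop where
  card : ∀ a ∈ F, (a.S.card : ℝ) ≤ rr k ^ 2
  sig : ∀ a ∈ F, ∀ j, |a.σ j| ≤ 1
  tau : ∀ a ∈ F, ∀ j, |a.τ j| ≤ if j ∈ a.S then 1 else 0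
  sub : ∀ a ∈ F, a.S ⊆ blk (Nat.log 16 k) ∪ blk (Nat.log 16 k + 1)
  ort : ∀ a ∈ F, ∀ a' ∈ F,
    |∑ j ∈ a'.S, a'.σ j * a.τ j| * (2 ^ k * 2 ^ k) ≤ 2 ^ 18 * (rr k * rr k)
  avg : ∀ T : ℕ → ℕ → ℝ, ∃ a ∈ F,
    rr k ^ 2 / 4 * (beta (Nat.log 16 k + 1) T - beta (Nat.log 16 k) T) ≤
      ∑ i ∈ a.S, ∑ j ∈ a.S, a.σ i * a.τ j * T i j

theorem exists_lev (k : ℕ) : ∃ F, Lev k F := by
  classical
  obtain ⟨n, hn⟩ : ∃ n, n = Nat.log 16 k := ⟨_, rfl⟩
  obtain ⟨t, ht⟩ : ∃ t, t = (k + 1) ^ 2 := ⟨_, rfl⟩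
  have ht0 : 0 < t := by rw [ht]; positivity
  have hk1 : k + 1 ≤ 16 ^ (n + 1) := hn ▸ Nat.lt_pow_succ_log_self (by norm_num) k
  have hk2 : 16 ^ n ≤ k + 1 := by
    rcases Nat.eq_zero_or_pos k with rfl | h0
    · simp [hn]
    · exact (hn ▸ Nat.pow_log_le_self 16 h0.ne').trans (Nat.le_succ k)
  have e256 : ∀ m : ℕ, 256 ^ m = (16 ^ m) ^ 2 := fun m => by
    rw [← pow_mul, mul_comm, pow_mul]; norm_num
  have hd1 : 4 * t ≤ dd n := by
    rw [dd, ht, e256]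
    exact Nat.mul_le_mul_left 4 (Nat.pow_le_pow_left hk1 2)
  have hd2 : dd n ≤ dd (n + 1) :=
    Nat.mul_le_mul_left 4 (Nat.pow_le_pow_right (by norm_num) (by omega))
  have hd3 : dd (n + 1) ≤ 2 ^ 18 * t := by
    have : (16 ^ n) ^ 2 ≤ t := ht ▸ Nat.pow_le_pow_left hk2 2
    rw [dd, pow_succ, pow_succ, e256]
    omega
  let K := GaloisField 2 (2 * t)
  let _ : Fintype K := Fintype.ofFinite K
  have hc : Fintype.card K = 2 ^ (2 * t) := by
    rw [← Nat.card_eq_fintype_card]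
    exact GaloisField.card 2 (2 * t) (by omega)
  have two : ∀ x : K, x + x = 0 := CharTwo.add_self_eq_zero
  obtain ⟨χ, hχ⟩ := (AddChar.exists_apply_ne_zero (α := K) (a := 1)).2 one_ne_zero
  have h1 : ∀ x, χ x = 1 ∨ χ x = -1 := fun x =>
    mul_self_eq_one_iff.1 (by rw [← χ.map_add_eq_mul, two, χ.map_zero_eq_one])
  have h : Sgn fun x : K => (χ x).re := by
    refine ⟨fun x y => ?_, by simp, two, 1, by simp [(h1 1).resolve_left hχ]⟩
    rw [χ.map_add_eq_mul]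
    rcases h1 x with e | e <;> simp [e]
  generalize (fun x : K => (χ x).re) = ψ at h
  let R := Fin (2 ^ (dd n - 4 * t))
  let R' := Fin (2 ^ (dd (n + 1) - dd n))
  have cR : Fintype.card R = 2 ^ (dd n - 4 * t) := Fintype.card_fin _
  have cR' : Fintype.card R' = 2 ^ (dd (n + 1) - dd n) := Fintype.card_fin _
  obtain ⟨u, hu, hu'⟩ := exists_emb (K × K × R) (blk n) (by
    simp only [Fintype.card_prod, hc, cR, blk_card, ← pow_add]; congr 1; omega)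
  obtain ⟨w, hw, hw'⟩ := exists_emb (K × K × R × R') (blk (n + 1)) (by
    simp only [Fintype.card_prod, hc, cR, cR', blk_card, ← pow_add]; congr 1; omega)
  have hd : ∀ a b, u a ≠ w b := fun a b e => by
    have := blk_disj (hu a) (e ▸ hw b)
    omega
  obtain ⟨g, hg⟩ := exists_g (K := K) (Γ := R × R' × Bool) (dd (n + 1) + 1) (by
    simp only [Fintype.card_prod, hc, cR, cR', Fintype.card_bool, ← pow_succ, ← pow_add, ← pow_mul]
    refine Nat.pow_le_pow_right two_pos ?_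
    have : dd (n + 1) + 1 ≤ 2 * t * (dd (n + 1) + 1) := Nat.le_mul_of_pos_left _ (by omega)
    omega)
  have hr : rr k ^ 2 = 4 * (Fintype.card K : ℝ) := by
    rw [rr, ← ht, hc]; push_cast; ring
  have hs : ∀ (d : Bool) (c : K) (s : ℝ), |s| = 1 → ∀ z,
      |Sum.elim (fun x => s * ψ (c * x)) (fun x => eps d * ψ (c * x)) z| ≤ 1 := by
    rintro d c s hs (x | x) <;> simp [abs_mul, h.abs_eq, eps_abs, hs]
  refine ⟨Set.range fun ω : (K × R × R' × Bool) × K => mem u w hd g ψ ω.1 ω.2,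
    ?_, ?_, ?_, ?_, ?_, fun T => ?_⟩
  · rintro _ ⟨ω, rfl⟩
    simp only [mem, mk, card_map, card_univ, Fintype.card_sum, hr]
    push_cast
    have : (0 : ℝ) ≤ Fintype.card K := Nat.cast_nonneg _
    linarith
  · rintro _ ⟨ω, rfl⟩ j
    refine (ext_le _ _ (by simpa using hs ω.1.2.2.2 ω.2 1 (by simp)) j).trans ?_
    split_ifs <;> norm_num
  · rintro _ ⟨ω, rfl⟩ j
    exact ext_le _ _ (by simpa using hs ω.1.2.2.2 ω.2 (-1) (by simp)) j
  · rintro _ ⟨ω, rfl⟩ j hj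
    rw [← hn]
    obtain ⟨z, -, rfl⟩ := mem_map.1 hj
    rcases z with x | x
    · exact mem_union_left _ (hu _)
    · exact mem_union_right _ (hw _)
  · rintro _ ⟨ω, rfl⟩ _ ⟨ω', rfl⟩
    refine (mul_le_mul_of_nonneg_right (mem_ort h hg _ _ _ _) (by positivity)).trans ?_
    rw [← sq (rr k), hr, hc]
    have a1 : t ≤ 2 ^ (k + 1) * 2 ^ (k + 1) := by
      rw [ht, sq]
      exact Nat.mul_le_mul Nat.lt_two_pow_self.le Nat.lt_two_pow_self.le
    have a2 : 2 ^ (k + 1) * 2 ^ (k + 1) * (2 ^ k * 2 ^ k) ≤ 2 ^ (2 * t) := by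
      simp only [← pow_add]
      exact Nat.pow_le_pow_right two_pos (by rw [ht]; ring_nf; omega)
    have a3 : 2 * (dd (n + 1) + 1 + 1) * (2 ^ k * 2 ^ k) ≤ 2 ^ 18 * (4 * 2 ^ (2 * t)) :=
      calc _ ≤ 2 ^ 20 * t * (2 ^ k * 2 ^ k) := Nat.mul_le_mul_right _ (by omega)
        _ ≤ 2 ^ 20 * (2 ^ (k + 1) * 2 ^ (k + 1)) * (2 ^ k * 2 ^ k) := by gcongr
        _ ≤ _ := by rw [mul_assoc]; omega
    exact_mod_cast a3
  · rw [← hn]
    have hne : (univ : Finset ((K × R × R' × Bool) × K)).Nonempty :=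
      ⟨((0, ⟨0, by positivity⟩, ⟨0, by positivity⟩, true), 0), mem_univ _⟩
    obtain ⟨ω, -, hω⟩ := exists_le_of_sum_le hne
      (f := fun _ => rr k ^ 2 / 4 * (beta (n + 1) T - beta n T))
      (g := fun ω => ∑ a ∈ (mem u w hd g ψ ω.1 ω.2).S, ∑ b ∈ (mem u w hd g ψ ω.1 ω.2).S,
        (mem u w hd g ψ ω.1 ω.2).σ a * (mem u w hd g ψ ω.1 ω.2).τ b * T a b) (le_of_eq (by
      rw [mem_avg h, hu' fun j => T j j, hw' fun j => T j j, sum_const, card_univ, nsmul_eq_mul, hr,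
        beta, beta]
      have b1 : (2 : ℝ) ^ dd (n + 1) = 2 ^ dd n * 2 ^ (dd (n + 1) - dd n) := by
        rw [← pow_add]; congr 1; omega
      have b2 : (2 : ℝ) ^ dd n = 2 ^ (2 * t) * 2 ^ (2 * t) * 2 ^ (dd n - 4 * t) := by
        rw [← pow_add, ← pow_add]; congr 1; omega
      simp only [Fintype.card_prod, hc, cR, cR', Fintype.card_bool]
      push_cast
      rw [b1, b2]
      field_simp))
    exact ⟨_, ⟨ω, rfl⟩, hω⟩

end Pool.Agent.Lib.MP_a2b538_an.AP
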