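import Mathlib

namespace Pool.Agent.Lib.MP_a2b538_an.AP

open Finset Filter Topology

variable {𝕜 : Type} [RCLike 𝕜] {X Y : Type} [NormedAddCommGroup X] [NormedSpace 𝕜 X]
  [NormedAddCommGroup Y] [NormedSpace 𝕜 Y]

/-- pointwise null and uniformly bounded means uniformly null on compact sets -/
theorem unif_null (G : ℕ → X →L[𝕜] Y) {C : ℝ} (hC : 0 < C) (hG : ∀ n x, ‖G n x‖ ≤ C * ‖x‖)
    (h0 : ∀ x, Tendsto (fun n => G n x) atTop (𝓝 0)) {K : Set X} (hK : IsCompact K) {ε : ℝ}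
    (hε : 0 < ε) : ∀ᶠ n in atTop, ∀ x ∈ K, ‖G n x‖ ≤ ε := by
  refine hK.induction_on (p := fun s => ∀ᶠ n in atTop, ∀ x ∈ s, ‖G n x‖ ≤ ε) (by simp)
    (fun s t hst ht => ht.mono fun n hn x hx => hn x (hst hx))
    (fun s t hs ht => (hs.and ht).mono fun n hn x hx => hx.elim (hn.1 x) (hn.2 x)) fun x _ => ?_
  refine ⟨Metric.ball x (ε / 2 / C), mem_nhdsWithin_of_mem_nhds
    (Metric.ball_mem_nhds x (by positivity)), ?_⟩
  have h1 := (h0 x).norm.eventually (gt_mem_nhds (show ‖(0 : Y)‖ < ε / 2 by simpa using hε))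
  refine h1.mono fun n hn z hz => ?_
  rw [Metric.mem_ball, dist_eq_norm, lt_div_iff₀' hC] at hz
  have h2 := hG n (z - x)
  have h3 := norm_add_le (G n (z - x)) (G n x)
  rw [← map_add, sub_add_cancel] at h3
  linarith

theorem compact_of_finite (T : X →L[𝕜] Y) (h : FiniteDimensional 𝕜 T.range) :
    IsCompactOperator T := by
  have := FiniteDimensional.proper_rclike 𝕜 T.range
  exact (isCompactOperator_of_locallyCompactSpace_dom
    (T.codRestrict T.range fun x => ⟨x, rfl⟩)).clm_comp T.range.subtypeL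

theorem compact_union [CompleteSpace X] (K : ℕ → Set X) (hK : ∀ n, IsCompact (K n)) (δ : ℕ → ℝ)
    (hδ : Tendsto δ atTop (𝓝 0)) (h : ∀ n, ∀ x ∈ K n, ‖x‖ ≤ δ n) :
    IsCompact (closure (⋃ n, K n)) := by
  refine (TotallyBounded.closure ?_).isCompact_of_isClosed isClosed_closure
  rw [Metric.totallyBounded_iff]
  intro ε hε
  obtain ⟨N, hN⟩ := eventually_atTop.1 (hδ.eventually (gt_mem_nhds hε))
  have h1 : IsCompact (⋃ n ∈ range N, K n) := (range N).isCompact_biUnion fun n _ => hK n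
  obtain ⟨t, ht, ht'⟩ := Metric.totallyBounded_iff.1 h1.totallyBounded ε hε
  refine ⟨insert 0 t, ht.insert 0, fun x hx => ?_⟩
  obtain ⟨n, hn⟩ := Set.mem_iUnion.1 hx
  rw [Set.biUnion_insert]
  by_cases e : n < N
  · exact Or.inr (ht' (Set.mem_biUnion (mem_range.2 e) hn))
  · exact Or.inl (mem_ball_zero_iff.2 ((h n x hn).trans_lt (hN n (not_lt.1 e))))

theorem compact_ball (s : Set X) (hs : s.Finite) (δ : ℝ) :
    IsCompact {x | x ∈ Submodule.span 𝕜 s ∧ ‖x‖ ≤ δ} := by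
  have := FiniteDimensional.span_of_finite 𝕜 hs
  have := FiniteDimensional.proper_rclike 𝕜 (Submodule.span 𝕜 s)
  convert (isCompact_closedBall (0 : Submodule.span 𝕜 s) δ).image continuous_subtype_val using 1
  ext x
  simp [and_comm]

/-- a Schauder basis gives the approximation property -/
theorem ap_of_schauder [CompleteSpace X] (y : ℕ → X)
    (hy : ∀ x : X, ∃! a : ℕ → 𝕜, Tendsto (fun N => ∑ n ∈ range N, a n • y n) atTop (𝓝 x))
    {K : Set X} (hK : IsCompact K) {ε : ℝ} (hε : 0 < ε) :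
    ∃ T : X →L[𝕜] X, FiniteDimensional 𝕜 T.range ∧ ∀ x ∈ K, ‖T x - x‖ ≤ ε := by
  let ev : OnePoint ℕ → C(OnePoint ℕ, X) →L[𝕜] X := fun p => ContinuousMap.evalCLM 𝕜 p
  let E : Submodule 𝕜 C(OnePoint ℕ, X) := (ev (0 : ℕ)).ker ⊓
    ⨅ n : ℕ, (Submodule.span 𝕜 {y n}).comap (ev (n + 1 : ℕ) - ev n).toLinearMap
  have hE : ∀ s, s ∈ E ↔ s (0 : ℕ) = 0 ∧ ∀ n : ℕ, ∃ c : 𝕜, c • y n = s (n + 1 : ℕ) - s n := by
    intro s
    simp [E, ev, Submodule.mem_span_singleton]
  have hc : IsClosed (E : Set C(OnePoint ℕ, X)) := by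
    simp only [E, Submodule.coe_inf, Submodule.coe_iInf, Submodule.comap_coe]
    refine (ev _).isClosed_ker.inter (isClosed_iInter fun n => ?_)
    exact (Submodule.closed_of_finiteDimensional _).preimage (ev (n + 1 : ℕ) - ev n).continuous
  have : CompleteSpace E := hc.completeSpace_coe
  have hsum : ∀ s ∈ E, ∃ a : ℕ → 𝕜, ∀ N : ℕ, s N = ∑ n ∈ range N, a n • y n := by
    intro s hs
    obtain ⟨h0, h1⟩ := (hE s).1 hs
    choose a ha using h1
    refine ⟨a, fun N => ?_⟩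
    simp only [ha]
    rw [sum_range_sub fun n : ℕ => s n, h0, sub_zero]
  have hlim : ∀ s : C(OnePoint ℕ, X), Tendsto (fun N : ℕ => s N) atTop (𝓝 (s OnePoint.infty)) :=
    fun s => (OnePoint.continuous_iff_from_nat s).1 s.continuous
  let Λ : E →L[𝕜] X := (ev OnePoint.infty).comp E.subtypeL
  have hker : Λ.ker = ⊥ := by
    rw [eq_bot_iff]
    intro s hs
    have h0 : s.1 OnePoint.infty = 0 := hs
    obtain ⟨a, ha⟩ := hsum s.1 s.2
    have h1 := hlim s.1
    simp only [ha, h0] at h1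
    have h2 : a = 0 := (hy 0).unique h1 (by simp)
    refine Subtype.ext (ContinuousMap.ext fun p => ?_)
    induction p using OnePoint.rec with
    | infty => exact h0
    | coe N => simp [ha, h2]
  have hran : Λ.range = ⊤ := by
    rw [eq_top_iff]
    intro x _
    obtain ⟨a, ha⟩ := (hy x).exists
    refine ⟨⟨OnePoint.continuousMapMkNat _ x ha, (hE _).2 ⟨rfl, fun n => ⟨a n, ?_⟩⟩⟩, rfl⟩
    change _ = ∑ i ∈ range (n + 1), a i • y i - ∑ i ∈ range n, a i • y i
    rw [sum_range_succ, add_sub_cancel_left]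
  let I := ContinuousLinearEquiv.ofBijective Λ hker hran
  let P : ℕ → X →L[𝕜] X := fun N => (ev N).comp (E.subtypeL.comp I.symm.toContinuousLinearMap)
  have hP : ∀ N x, P N x = (I.symm x).1 N := fun _ _ => rfl
  have h1 : ∀ N x, ‖(P N - ContinuousLinearMap.id 𝕜 X) x‖ ≤
      (‖I.symm.toContinuousLinearMap‖ + 1) * ‖x‖ := by
    intro N x
    have a1 : ‖P N x‖ ≤ ‖I.symm x‖ := ContinuousMap.norm_coe_le_norm (I.symm x).1 _
    have a2 : ‖I.symm x‖ ≤ _ := I.symm.toContinuousLinearMap.le_opNorm x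
    have a3 := norm_sub_le (P N x) x
    change ‖P N x - x‖ ≤ _
    linarith
  have h2 : ∀ x, Tendsto (fun N => (P N - ContinuousLinearMap.id 𝕜 X) x) atTop (𝓝 0) := by
    intro x
    have a1 := hlim (I.symm x).1
    have a2 : (I.symm x).1 OnePoint.infty = x := I.apply_symm_apply x
    rw [a2] at a1
    exact tendsto_sub_nhds_zero_iff.2 a1
  obtain ⟨N, hN⟩ := (unif_null _ (by positivity) h1 h2 hK hε).exists
  refine ⟨P N, ?_, hN⟩
  have := FiniteDimensional.span_of_finite 𝕜 ((range N).finite_toSet.image y)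
  refine Submodule.finiteDimensional_of_le (S₂ := Submodule.span 𝕜 (y '' (range N : Set ℕ))) ?_
  rintro _ ⟨x, rfl⟩
  obtain ⟨a, ha⟩ := hsum _ (I.symm x).2
  change P N x ∈ _
  rw [hP, ha]
  exact Submodule.sum_mem _ fun n hn =>
    Submodule.smul_mem _ _ (Submodule.subset_span ⟨n, hn, rfl⟩)

end Pool.Agent.Lib.MP_a2b538_an.AP
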