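import Mathlib
import Pool.Agent.Lib.MP_a2b538_an.AP.Data
import Pool.Agent.Lib.MP_a2b538_an.AP.Model

namespace Pool.Agent.Lib.MP_a2b538_an.AP

open Finset

variable {L : ℕ → Set Mem}

theorem small_of (hL : ∀ k, Lev k (L k)) : Small L :=
  ⟨fun k => (hL k).card, fun k => (hL k).sig⟩

theorem exists_signs (B : ℕ → ℕ → ℝ) (J : Finset ℕ) :
    ∃ θ : ℕ → ℝ, (∀ k, θ k * θ k = 1) ∧
      ∑ k ∈ J, B k k ≤ ∑ k ∈ J, ∑ l ∈ J, θ k * θ l * B k l := by
  classical
  induction J using Finset.induction_on with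
  | empty => exact ⟨fun _ => 1, by simp, by simp⟩
  | insert a J ha ih =>
    obtain ⟨θ, h1, h2⟩ := ih
    obtain ⟨s, hs, hs'⟩ : ∃ s : ℝ, s * s = 1 ∧ 0 ≤ s * ∑ l ∈ J, θ l * (B a l + B l a) := by
      rcases le_total 0 (∑ l ∈ J, θ l * (B a l + B l a)) with e | e
      · exact ⟨1, by simp, by simpa using e⟩
      · exact ⟨-1, by simp, by simpa using e⟩
    have hu : ∀ l ∈ J, Function.update θ a s l = θ l := fun l hl =>
      Function.update_of_ne (fun e : l = a => ha (e ▸ hl)) _ _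
    refine ⟨Function.update θ a s, fun k => ?_, ?_⟩
    · by_cases e : k = a
      · subst e; simpa using hs
      · rw [Function.update_of_ne e]; exact h1 k
    · simp only [sum_insert ha, Function.update_self, sum_add_distrib]
      have e1 : ∑ l ∈ J, s * Function.update θ a s l * B a l = ∑ l ∈ J, s * θ l * B a l :=
        sum_congr rfl fun l hl => by rw [hu l hl]
      have e2 : ∑ l ∈ J, Function.update θ a s l * s * B l a = ∑ l ∈ J, θ l * s * B l a :=
        sum_congr rfl fun l hl => by rw [hu l hl]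
      have e3 : ∑ k ∈ J, ∑ l ∈ J, Function.update θ a s k * Function.update θ a s l * B k l =
          ∑ k ∈ J, ∑ l ∈ J, θ k * θ l * B k l :=
        sum_congr rfl fun k hk => sum_congr rfl fun l hl => by rw [hu l hl, hu k hk]
      have e4 : s * ∑ l ∈ J, θ l * (B a l + B l a) =
          ∑ l ∈ J, s * θ l * B a l + ∑ l ∈ J, θ l * s * B l a := by
        rw [mul_sum, ← sum_add_distrib]
        exact sum_congr rfl fun l _ => by ring
      rw [e1, e2, e3, hs]
      linarith

theorem inter_le (hL : ∀ k, Lev k (L k)) {k l : ℕ} (hkl : k ≠ l) {a a' : Mem} (ha : a ∈ L k)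
    (ha' : a' ∈ L l) :
    ((a'.S ∩ a.S).card : ℝ) / (rr l * rr k) ≤ (1 / 2) ^ l * (1 / 2) ^ k := by
  have h1 : ((a'.S ∩ a.S).card : ℝ) ≤ rr k ^ 2 :=
    le_trans (by exact_mod_cast card_le_card inter_subset_right) ((hL k).card a ha)
  have h2 : ((a'.S ∩ a.S).card : ℝ) ≤ rr l ^ 2 :=
    le_trans (by exact_mod_cast card_le_card inter_subset_left) ((hL l).card a' ha')
  have hk := rr_pos k
  have hl := rr_pos l
  rw [one_div_pow, one_div_pow, div_mul_div_comm, div_le_div_iff₀ (by positivity) (by positivity)]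
  rcases lt_or_gt_of_ne hkl with h | h
  · have := mul_le_mul_of_nonneg_left (rr_lt h) hk.le
    have := mul_le_mul_of_nonneg_right h1 (by positivity : (0 : ℝ) ≤ 2 ^ l * 2 ^ k)
    nlinarith
  · have := mul_le_mul_of_nonneg_left (rr_lt h) hl.le
    have := mul_le_mul_of_nonneg_right h2 (by positivity : (0 : ℝ) ≤ 2 ^ l * 2 ^ k)
    nlinarith

theorem cross (hL : ∀ k, Lev k (L k)) {k l : ℕ} {a a' : Mem} (ha : a ∈ L k) (ha' : a' ∈ L l) :
    |∑ j ∈ a'.S, a'.σ j * a.τ j| / (rr l * rr k) ≤ 2 ^ 18 * ((1 / 2) ^ l * (1 / 2) ^ k) := by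
  have hk := rr_pos k
  have hl := rr_pos l
  by_cases hkl : k = l
  · subst hkl
    rw [one_div_pow, div_mul_div_comm, ← mul_div_assoc,
      div_le_div_iff₀ (by positivity) (by positivity)]
    simpa using (hL k).ort a ha a' ha'
  · have h1 : |∑ j ∈ a'.S, a'.σ j * a.τ j| ≤ (a'.S ∩ a.S).card := by
      refine (abs_sum_le_sum_abs _ _).trans (le_trans (sum_le_sum
        (g := fun j => if j ∈ a.S then (1 : ℝ) else 0) fun j _ => ?_) ?_)
      · rw [abs_mul]
        exact (mul_le_of_le_one_left (abs_nonneg _) ((hL l).sig a' ha' j)).trans ((hL k).tau a ha j)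
      · rw [sum_ite_mem, sum_const, nsmul_eq_mul, mul_one]
    refine (div_le_div_of_nonneg_right h1 (by positivity)).trans
      ((inter_le hL hkl ha ha').trans (le_mul_of_one_le_left (by positivity) (by norm_num)))

theorem geo_le (J : Finset ℕ) : ∑ k ∈ J, (1 / 2 : ℝ) ^ k ≤ 2 :=
  (summable_geometric_two.sum_le_tsum J fun _ _ => by positivity).trans tsum_geometric_two.le

theorem geo2_le (I J : Finset ℕ) : ∑ l ∈ I, ∑ k ∈ J, (1 / 2 : ℝ) ^ l * (1 / 2) ^ k ≤ 4 := by
  rw [← sum_mul_sum]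
  calc _ ≤ (2 : ℝ) * 2 := mul_le_mul (geo_le I) (geo_le J) (by positivity) (by norm_num)
    _ = 4 := by norm_num

variable {𝕜 : Type} [RCLike 𝕜]

theorem bd_comb (hL : ∀ k, Lev k (L k)) (a : ℕ → Mem) (ha : ∀ k, a k ∈ L k) (θ : ℕ → ℝ)
    (hθ : ∀ k, θ k * θ k = 1) (J : Finset ℕ) {C : ℝ} (hC : 2 ^ 20 ≤ C) (hC2 : J.card + 4 ≤ C ^ 2) :
    Bd L (fun j => ((∑ k ∈ J, θ k * (a k).τ j / rr k : ℝ) : 𝕜)) C := by
  classical
  have hθ1 : ∀ k, |θ k| = 1 := fun k => by
    rcases mul_self_eq_one_iff.1 (hθ k) with e | e <;> simp [e]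
  refine ⟨fun T => ?_, fun m a' ha' => ?_⟩
  · have a1 : ∀ j, ‖((∑ k ∈ J, θ k * (a k).τ j / rr k : ℝ) : 𝕜)‖ ^ 2 ≤ ∑ k ∈ J, ∑ l ∈ J,
        (if j ∈ (a k).S ∩ (a l).S then 1 else 0) / (rr k * rr l) := by
      intro j
      rw [RCLike.norm_ofReal]
      have b1 : |∑ k ∈ J, θ k * (a k).τ j / rr k| ≤
          ∑ k ∈ J, (if j ∈ (a k).S then 1 else 0) / rr k := by
        refine (abs_sum_le_sum_abs _ _).trans (sum_le_sum fun k _ => ?_)
        rw [abs_div, abs_of_pos (rr_pos k), abs_mul, hθ1, one_mul]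
        exact div_le_div_of_nonneg_right ((hL k).tau _ (ha k) j) (rr_pos k).le
      calc _ ≤ (∑ k ∈ J, (if j ∈ (a k).S then (1 : ℝ) else 0) / rr k) ^ 2 := by gcongr
        _ = _ := by
          rw [sq, sum_mul_sum]
          refine sum_congr rfl fun k _ => sum_congr rfl fun l _ => ?_
          rw [div_mul_div_comm]
          congr 1
          by_cases h1 : j ∈ (a k).S <;> by_cases h2 : j ∈ (a l).S <;> simp [h1, h2]
    calc _ ≤ ∑ j ∈ T, ∑ k ∈ J, ∑ l ∈ J,
          (if j ∈ (a k).S ∩ (a l).S then (1 : ℝ) else 0) / (rr k * rr l) :=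
          sum_le_sum fun j _ => a1 j
      _ = ∑ k ∈ J, ∑ l ∈ J, ∑ j ∈ T,
          (if j ∈ (a k).S ∩ (a l).S then (1 : ℝ) else 0) / (rr k * rr l) := by
          rw [sum_comm]; exact sum_congr rfl fun k _ => sum_comm
      _ ≤ ∑ k ∈ J, ∑ l ∈ J, ((if k = l then (1 : ℝ) else 0) + (1 / 2) ^ k * (1 / 2) ^ l) := by
          refine sum_le_sum fun k _ => sum_le_sum fun l _ => ?_
          have hp := mul_pos (rr_pos k) (rr_pos l)
          have c1 : ∑ j ∈ T, (if j ∈ (a k).S ∩ (a l).S then (1 : ℝ) else 0) / (rr k * rr l) ≤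
              (((a k).S ∩ (a l).S).card : ℝ) / (rr k * rr l) := by
            rw [← sum_div]
            refine div_le_div_of_nonneg_right ?_ hp.le
            rw [sum_ite_mem, sum_const, nsmul_eq_mul, mul_one]
            exact_mod_cast card_le_card inter_subset_right
          refine c1.trans ?_
          split_ifs with e
          · subst e
            rw [inter_self]
            refine le_trans ?_ (le_add_of_nonneg_right (by positivity))
            rw [div_le_one hp, ← sq]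
            exact (hL k).card _ (ha k)
          · rw [zero_add]
            exact inter_le hL (Ne.symm e) (ha l) (ha k)
      _ = J.card + ∑ k ∈ J, ∑ l ∈ J, (1 / 2 : ℝ) ^ k * (1 / 2) ^ l := by
          simp only [sum_add_distrib]
          congr 1
          rw [card_eq_sum_ones]
          push_cast
          exact sum_congr rfl fun k hk => by rw [sum_ite_eq, if_pos hk]
      _ ≤ _ := by linarith [geo2_le J J]
  · calc _ ≤ ∑ l ∈ range m, ∑ k ∈ J, (2 : ℝ) ^ 18 * ((1 / 2) ^ l * (1 / 2) ^ k) := by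
          refine sum_le_sum fun l _ => ?_
          have e : ∑ j ∈ (a' l).S, ((a' l).σ j : 𝕜) * ((∑ k ∈ J, θ k * (a k).τ j / rr k : ℝ) : 𝕜) =
              ((∑ k ∈ J, θ k * (∑ j ∈ (a' l).S, (a' l).σ j * (a k).τ j) / rr k : ℝ) : 𝕜) := by
            simp only [← RCLike.ofReal_mul, ← RCLike.ofReal_sum, mul_sum, sum_div]
            rw [sum_comm]
            congr 1
            exact sum_congr rfl fun k _ => sum_congr rfl fun j _ => by ring
          rw [e, RCLike.norm_ofReal]
          refine (div_le_div_of_nonneg_right (abs_sum_le_sum_abs _ _) (rr_pos l).le).trans ?_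
          rw [sum_div]
          refine sum_le_sum fun k _ => ?_
          rw [abs_div, abs_of_pos (rr_pos k), abs_mul, hθ1, one_mul, div_div, mul_comm (rr k)]
          exact cross hL (ha k) (ha' l)
      _ = 2 ^ 18 * ∑ l ∈ range m, ∑ k ∈ J, (1 / 2 : ℝ) ^ l * (1 / 2) ^ k := by
          simp only [mul_sum]
      _ ≤ C := by linarith [geo2_le (range m) J]

variable {X : Type} [NormedAddCommGroup X] [NormedSpace 𝕜 X] {e : ℕ → X} {f : ℕ → X →L[𝕜] 𝕜}

/-- the real matrix of an operator -/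
noncomputable def mat (e : ℕ → X) (f : ℕ → X →L[𝕜] 𝕜) (U : X →L[𝕜] X) (i j : ℕ) : ℝ :=
  RCLike.re (f i (U (e j)))

theorem key (hL : ∀ k, Lev k (L k)) (h : Model L e f) (U : X →L[𝕜] X) (n : ℕ) :
    ∃ x : ℕ → 𝕜, ‖∑ j ∈ blk n ∪ blk (n + 1), x j • e j‖ ≤ 2 ^ 20 * 4 ^ n ∧
      16 ^ n / 4 * (beta (n + 1) (mat e f U) - beta n (mat e f U)) ≤
        ‖U (∑ j ∈ blk n ∪ blk (n + 1), x j • e j)‖ := by
  classical
  choose a ha hav using fun k => (hL k).avg (mat e f U)
  let J : Finset ℕ := Ico (16 ^ n) (2 * 16 ^ n)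
  have hJ : ∀ k ∈ J, Nat.log 16 k = n := fun k hk => by
    have := mem_Ico.1 hk
    exact Nat.log_eq_of_pow_le_of_lt_pow this.1 (by rw [pow_succ]; omega)
  have hJc : (J.card : ℝ) = 16 ^ n := by
    have : J.card = 16 ^ n := by simp only [J, Nat.card_Ico]; omega
    exact_mod_cast this
  let V := blk n ∪ blk (n + 1)
  have hV : ∀ k ∈ J, (a k).S ⊆ V := fun k hk => by
    have := (hL k).sub _ (ha k)
    rwa [hJ k hk] at this
  have hτ : ∀ k, ∀ j ∉ (a k).S, (a k).τ j = 0 := fun k j hj => by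
    have := (hL k).tau _ (ha k) j
    rwa [if_neg hj, abs_nonpos_iff] at this
  let B : ℕ → ℕ → ℝ := fun k l =>
    (∑ i ∈ (a k).S, ∑ j ∈ (a l).S, (a k).σ i * (a l).τ j * mat e f U i j) / (rr k * rr l)
  obtain ⟨θ, hθ, hB⟩ := exists_signs B J
  have hθ1 : ∀ k, |θ k| = 1 := fun k => by
    rcases mul_self_eq_one_iff.1 (hθ k) with e | e <;> simp [e]
  let x : ℕ → ℝ := fun j => ∑ k ∈ J, θ k * (a k).τ j / rr k
  have hx0 : ∀ j ∉ V, x j = 0 := fun j hj =>
    sum_eq_zero fun k hk => by rw [hτ k j fun h => hj (hV k hk h)]; simp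
  refine ⟨fun j => (x j : 𝕜), h.le _ _ (by positivity) ?_, ?_⟩
  · have : (fun i => f i (∑ j ∈ blk n ∪ blk (n + 1), (x j : 𝕜) • e j)) = fun j => (x j : 𝕜) := by
      funext i
      rw [h.coord]
      split_ifs with hi
      · rfl
      · rw [hx0 i hi]; simp
    rw [this]
    have h4 : (1 : ℝ) ≤ 4 ^ n := one_le_pow₀ (by norm_num)
    refine bd_comb hL a ha θ hθ J (by nlinarith) ?_
    have : (16 : ℝ) ^ n = 4 ^ n * 4 ^ n := by rw [← mul_pow]; norm_num
    rw [hJc, this]
    nlinarith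
  · set y := ∑ j ∈ blk n ∪ blk (n + 1), (x j : 𝕜) • e j with hy
    refine le_trans ?_ ((h.bd (U y)).2 (2 * 16 ^ n) a ha)
    have c1 : ∀ i, RCLike.re (f i (U y)) = ∑ j ∈ V, x j * mat e f U i j := fun i => by
      simp only [hy, map_sum, map_smul, smul_eq_mul, RCLike.re_ofReal_mul, mat, V]
    have c2 : ∀ k ∈ J, ∑ l ∈ J, θ k * θ l * B k l ≤
        ‖∑ i ∈ (a k).S, ((a k).σ i : 𝕜) * f i (U y)‖ / rr k := fun k _ => by
      have d1 : ∑ l ∈ J, θ k * θ l * B k l =
          θ k * RCLike.re (∑ i ∈ (a k).S, ((a k).σ i : 𝕜) * f i (U y)) / rr k := by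
        simp only [map_sum, RCLike.re_ofReal_mul, c1, x, Finset.sum_mul, mul_sum, sum_div, B]
        rw [sum_comm]
        refine sum_congr rfl fun i _ => ?_
        rw [sum_comm (s := V)]
        refine sum_congr rfl fun l hl => ?_
        rw [← sum_subset (hV l hl) fun j _ hj => by rw [hτ l j hj]; simp]
        refine sum_congr rfl fun j _ => ?_
        have := rr_pos k
        have := rr_pos l
        field_simp
      rw [d1]
      refine div_le_div_of_nonneg_right ((le_abs_self _).trans ?_) (rr_pos k).le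
      rw [abs_mul, hθ1, one_mul]
      exact RCLike.abs_re_le_norm _
    calc _ = ∑ _k ∈ J, (beta (n + 1) (mat e f U) - beta n (mat e f U)) / 4 := by
          rw [sum_const, nsmul_eq_mul, hJc]; ring
      _ ≤ ∑ k ∈ J, B k k := by
          refine sum_le_sum fun k hk => ?_
          have := hav k
          rw [hJ k hk] at this
          rw [le_div_iff₀ (mul_pos (rr_pos k) (rr_pos k))]
          refine le_trans (le_of_eq ?_) this
          ring
      _ ≤ _ := hB.trans ((sum_le_sum c2).trans (sum_le_sum_of_subset_of_nonneg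
          (fun k hk => mem_range.2 (mem_Ico.1 hk).2) fun k _ _ =>
            div_nonneg (norm_nonneg _) (rr_pos k).le))

end Pool.Agent.Lib.MP_a2b538_an.AP
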