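import Mathlib
import Pool.Agent.Lib.MP_a2b538_an.AP.Key
import Pool.Agent.Lib.MP_a2b538_an.AP.Gen

namespace Pool.Agent.Lib.MP_a2b538_an.AP

open Finset Filter Topology

variable {𝕜 : Type} [RCLike 𝕜] {L : ℕ → Set Mem} {X : Type} [NormedAddCommGroup X]
  [NormedSpace 𝕜 X] {e : ℕ → X} {f : ℕ → X →L[𝕜] 𝕜}

theorem beta_le {n : ℕ} {T : ℕ → ℕ → ℝ} {c : ℝ} (h : ∀ j ∈ blk n, T j j ≤ c) : beta n T ≤ c := by
  rw [beta, div_le_iff₀ (by positivity)]
  refine (sum_le_card_nsmul _ _ _ h).trans (le_of_eq ?_)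
  rw [blk_card, nsmul_eq_mul]; push_cast; ring

theorem le_beta {n : ℕ} {T : ℕ → ℕ → ℝ} {c : ℝ} (h : ∀ j ∈ blk n, c ≤ T j j) : c ≤ beta n T := by
  rw [beta, le_div_iff₀ (by positivity)]
  refine le_trans (le_of_eq ?_) (card_nsmul_le_sum _ _ _ h)
  rw [blk_card, nsmul_eq_mul]; push_cast; ring

theorem Model.coord_null (h : Model L e f) (x : X) : Tendsto (fun j => f j x) atTop (𝓝 0) := by
  rw [NormedAddGroup.tendsto_nhds_zero]
  intro ε hε
  rw [← Nat.cofinite_eq_atTop, eventually_cofinite]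
  simpa using h.finite_large x hε

theorem not_cap [CompleteSpace X] (hL : ∀ k, Lev k (L k)) (h : Model L e f) :
    ∃ K : Set X, IsCompact K ∧ ∀ T : X →L[𝕜] X, IsCompactOperator T →
      ¬ ∀ x ∈ K, ‖T x - x‖ ≤ 1 / 20 := by
  classical
  let K : ℕ → Set X := fun n => {x | x ∈ Submodule.span 𝕜 (e '' (blk n ∪ blk (n + 1) : Finset ℕ)) ∧
    ‖x‖ ≤ 2 ^ 20 * (1 / 2) ^ n}
  have hK : IsCompact (closure (⋃ n, K n)) := by
    refine compact_union K (fun n => compact_ball _ ((Finset.finite_toSet _).image e) _)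
      (fun n => 2 ^ 20 * (1 / 2) ^ n) ?_ fun n x hx => hx.2
    simpa using (tendsto_pow_atTop_nhds_zero_of_lt_one (r := (1 / 2 : ℝ)) (by norm_num)
      (by norm_num)).const_mul (2 ^ 20)
  refine ⟨_, hK, fun T hT hx => ?_⟩
  let U : X →L[𝕜] X := ContinuousLinearMap.id 𝕜 X - T
  have hU : ∀ n, ∀ x ∈ K n, ‖U x‖ ≤ 1 / 20 := fun n x hn => by
    have := hx x (subset_closure (Set.mem_iUnion.2 ⟨n, hn⟩))
    rwa [norm_sub_rev] at this
  have b0 : beta 0 (mat e f U) ≤ 1 / 20 := beta_le fun j hj => by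
    refine ((RCLike.re_le_norm _).trans (h.coord_le _ j)).trans (hU 0 _ ⟨?_, ?_⟩)
    · exact Submodule.subset_span ⟨j, mem_coe.2 (mem_union_left _ hj), rfl⟩
    · have := (h.norm_e (small_of hL) j).2
      norm_num
      linarith
  have b1 : ∀ n, beta (n + 1) (mat e f U) - beta n (mat e f U) ≤ 1 / 5 * (1 / 2) ^ n := by
    intro n
    obtain ⟨x, h1, h2⟩ := key hL h U n
    set y := ∑ j ∈ blk n ∪ blk (n + 1), x j • e j with hy
    have hc : ‖(((1 / 8 : ℝ) ^ n : ℝ) : 𝕜)‖ = (1 / 8) ^ n := by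
      rw [RCLike.norm_ofReal, abs_of_pos (by positivity)]
    have h3 := hU n ((((1 / 8 : ℝ) ^ n : ℝ) : 𝕜) • y) ⟨Submodule.smul_mem _ _
      (Submodule.sum_mem _ fun j hj => Submodule.smul_mem _ _
        (Submodule.subset_span ⟨j, mem_coe.2 hj, rfl⟩)), by
      rw [norm_smul, hc]
      refine (mul_le_mul_of_nonneg_left h1 (by positivity)).trans (le_of_eq ?_)
      rw [mul_left_comm, ← mul_pow]; norm_num⟩
    rw [map_smul, norm_smul, hc] at h3
    have h4 := (mul_le_mul_of_nonneg_left h2 (by positivity : (0 : ℝ) ≤ (1 / 8) ^ n)).trans h3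
    have e1 : (1 / 8 : ℝ) ^ n * 16 ^ n = 2 ^ n := by rw [← mul_pow]; norm_num
    have e2 : (1 / 2 : ℝ) ^ n * 2 ^ n = 1 := by rw [← mul_pow]; norm_num
    have h5 := mul_le_mul_of_nonneg_left h4 (by positivity : (0 : ℝ) ≤ (1 / 2) ^ n)
    have e3 : ∀ d : ℝ, (1 / 2 : ℝ) ^ n * ((1 / 8) ^ n * (16 ^ n / 4 * d)) = d / 4 := fun d => by
      linear_combination ((1 / 2 : ℝ) ^ n * d / 4) * e1 + d / 4 * e2
    rw [e3] at h5
    linarith
  have b2 : ∀ N, beta N (mat e f U) ≤ 9 / 20 := fun N => by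
    have a1 := sum_range_sub (fun n => beta n (mat e f U)) N
    have a2 := sum_le_sum fun n (_ : n ∈ range N) => b1 n
    rw [← mul_sum] at a2
    linarith [geo_le (range N)]
  obtain ⟨C, hC, hC'⟩ := IsCompactOperator.image_closedBall_subset_compact (f := T.toLinearMap) hT 6
  obtain ⟨N, hN⟩ := eventually_atTop.1 (unif_null f one_pos
    (fun n x => by rw [one_mul]; exact h.coord_le x n) h.coord_null hC one_half_pos)
  have b3 : 1 / 2 ≤ beta N (mat e f U) := le_beta fun j hj => by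
    have a1 := hN j (le_of_mem_blk hj) (T (e j))
      (hC' ⟨e j, mem_closedBall_zero_iff.2 (h.norm_e (small_of hL) j).2, rfl⟩)
    have a2 : mat e f U j j = 1 - RCLike.re (f j (T (e j))) := by simp [mat, U, h.bi]
    linarith [RCLike.re_le_norm (f j (T (e j)))]
  linarith [b2 N]

end Pool.Agent.Lib.MP_a2b538_an.AP
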